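import Pool.Agent.H723R3.EuclidMain

set_option autoImplicit false

namespace Pool.Agent.Results.MP_14e93c_nt.EuclidClassOne

open Pool.Agent.H723R3

/-- **Every anisotropic Euclidean quadratic form has class number one.**

`R` is a Dedekind domain all of whose quotients by nonzero ideals are finite (every Hasse domain is
such a ring, in characteristic two as well), `K` is its fraction field, and
`q (x) = ∑ a i j * x i * x j` is a quadratic form in `n` variables over `R`.  If `q` is anisotropic
over `K` and Euclidean, then every lattice in the genus of `R ^ n` is isometric to `R ^ n`. -/
theorem result {R : Type*} [CommRing R] [IsDedekindDomain R] [Ring.HasFiniteQuotients R]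
    {K : Type*} [Field K] [Algebra R K] [IsFractionRing R K] {n : ℕ}
    (a : Matrix (Fin n) (Fin n) R) (hanis : IsAnisotropic K a) (heucl : IsEuclidean K a) :
    HasClassNumberOne K a :=
  classNumberOne hanis heucl

end Pool.Agent.Results.MP_14e93c_nt.EuclidClassOne
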